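import Mathlib
import Pool.Agent.Helper181.CovH

set_option autoImplicit false

namespace Pool.Agent.Results.MP_1000ca_al.PolyBoundInP

open Pool.Agent.Helper181.Cov

/-- `G` is a finite group such that every group of order `p ^ n` is isomorphic to a
subgroup of `G`. -/
def IsCover (p n : ℕ) (G : Type) [Group G] : Prop :=
  Finite G ∧ ∀ (H : Type) [Group H], Nat.card H = p ^ n → ∃ K : Subgroup G, Nonempty (H ≃* K)

/-- The set of orders of the finite groups that contain every group of order `p ^ n`. -/
def coverOrders (p n : ℕ) : Set ℕ :=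
  {k | ∃ (G : Type) (_ : Group G), IsCover p n G ∧ Nat.card G = k}

/-- The order of a smallest finite group that contains every group of order `p ^ n`. -/
noncomputable def minCoverOrder (p n : ℕ) : ℕ := sInf (coverOrders p n)

lemma cover_of_embeds {p n : ℕ} {G : Type} [Group G] [Finite G]
    (h : ∀ (H : Type) [Group H], Nat.card H = p ^ n → ∃ f : H →* G, Function.Injective f) :
    Nat.card G ∈ coverOrders p n := by
  refine ⟨G, inferInstance, ⟨inferInstance, ?_⟩, rfl⟩
  intro H _ hH
  obtain ⟨f, hf⟩ := h H hH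
  exact ⟨f.range, ⟨MonoidHom.ofInjective hf⟩⟩

lemma perm_embeds {N : ℕ} (hN : N ≠ 0) (H : Type) [Group H] (hH : Nat.card H = N) :
    ∃ f : H →* Equiv.Perm (Fin N), Function.Injective f := by
  have : Finite H := Nat.finite_of_card_ne_zero (by rw [hH]; exact hN)
  have e : H ≃ Fin N := Finite.equivFinOfCardEq hH
  refine ⟨(Equiv.permCongrHom e).toMonoidHom.comp (MulAction.toPermHom H H), ?_⟩
  rw [MonoidHom.coe_comp]
  exact (Equiv.permCongrHom e).injective.comp MulAction.toPerm_injective

/-- For each `n` there is an exponent that works for every prime. -/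
lemma exists_bound (n : ℕ) (hn : 1 ≤ n) :
    ∃ F : ℕ, ∀ p : ℕ, p.Prime → ∃ k ∈ coverOrders p n, k ≤ p ^ F := by
  obtain ⟨B, hB⟩ := good_large n hn
  refine ⟨max (eb n * eb n * eb n * Fintype.card (Ix (eb n))) (B ^ n).factorial, ?_⟩
  intro p hp
  rcases Nat.lt_or_ge B p with h | h
  · have := finite_Cont (e := eb n) hp
    refine ⟨Nat.card (Cont p (eb n)), ?_, ?_⟩
    · apply cover_of_embeds
      intro H _ hH
      exact good_embed hp hH (hB p hp h H hH)
    · exact (card_Cont hp).trans (Nat.pow_le_pow_right hp.pos (le_max_left _ _))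
  · refine ⟨Nat.card (Equiv.Perm (Fin (p ^ n))), ?_, ?_⟩
    · apply cover_of_embeds
      intro H _ hH
      exact perm_embeds (pow_ne_zero _ hp.ne_zero) H hH
    · rw [Nat.card_perm, Nat.card_fin]
      calc (p ^ n).factorial ≤ (B ^ n).factorial :=
            Nat.factorial_le (Nat.pow_le_pow_left h n)
        _ ≤ 2 ^ (B ^ n).factorial := Nat.lt_two_pow_self.le
        _ ≤ p ^ (B ^ n).factorial := Nat.pow_le_pow_left hp.two_le _
        _ ≤ _ := Nat.pow_le_pow_right hp.pos (le_max_right _ _)

/-- There is a function `F` such that for every prime `p` and every `n` at least one the order of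
a minimum `p ^ n`-cover is at most `p ^ F n`. -/
theorem result : ∃ F : ℕ → ℕ, ∀ p n : ℕ, p.Prime → 1 ≤ n →
    IsLeast (coverOrders p n) (minCoverOrder p n) ∧ minCoverOrder p n ≤ p ^ F n := by
  have h := fun n : ℕ => fun hn : 1 ≤ n => exists_bound n hn
  choose! F hF using h
  refine ⟨F, ?_⟩
  intro p n hp hn
  obtain ⟨k, hk, hkF⟩ := hF n hn p hp
  refine ⟨⟨Nat.sInf_mem ⟨k, hk⟩, fun a ha => Nat.sInf_le ha⟩, (Nat.sInf_le hk).trans hkF⟩

end Pool.Agent.Results.MP_1000ca_al.PolyBoundInP
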